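import Mathlib
import Pool.Agent.TH640B.Base
import Pool.Agent.TH640B.Data.Main

/-!
# Two balanced trisections with the same central surface that are not isotopic in any order

There is a closed connected oriented PL `4`-manifold `X` (with fundamental group `Z/5`) with two
`(3;1,1,1)`-trisections that have the same central surface, and that even coincide in a
neighbourhood of it, such that no homeomorphism of `X` homotopic to the identity, in particular no
ambient isotopy, carries the three pieces of the first onto the three pieces of the second in any
order.

The manifold is the geometric realisation `Body K` of an explicit triangulation `K`, and the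
pieces of the two trisections are subcomplexes of `K`, given by two colourings of the facets by
`0, 1, 2`; see `Pool.Agent.TH640B.Base` for the definitions.  They are checked literally: each
piece is an orientable PL `4`-manifold that collapses onto a circle, so a PL copy of `S¹ × B³`; any
two pieces meet in the intersection of their boundaries, which is an orientable PL `3`-manifold
that collapses onto a connected graph of rank `3`, so a handlebody of genus `3`; and the three
pieces meet in a closed connected orientable surface of genus `3`.  The last clause is proved for
every space `X` homeomorphic to `Body K`, so for every smooth manifold triangulated by `K`.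
-/

namespace Pool.Agent.Results.MP_5efd29_gt.PLTrisections

open Pool.Agent.TH640B

/-- **Theorem.** There are a triangulated closed connected orientable PL `4`-manifold `K` and two
colourings of its facets, each defining a balanced `(3;1,1,1)`-trisection, with the same central
surface and equal near it, such that for every space `X` homeomorphic to `Body K` (by `h`) and every
homeomorphism `φ` of `X` homotopic to the identity, `φ` does not carry the three pieces of the
first trisection onto those of the second in any order. -/
theorem result : ∃ (n : ℕ) (K : Fam n) (c₁ c₂ : Finset (Fin n) → Fin 3),
    IsManifold 4 K ∧ boundary K = ∅ ∧ IsConn (faces K) ∧ IsOrientable K ∧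
    IsTrisection K c₁ 3 1 ∧ IsTrisection K c₂ 3 1 ∧
    core K c₁ = core K c₂ ∧
    (∃ U : Set (Body K), IsOpen U ∧ core K c₁ ⊆ U ∧
      ∀ i, sector K c₁ i ∩ U = sector K c₂ i ∩ U) ∧
    ∀ (X : Type) [TopologicalSpace X] (h : Body K ≃ₜ X) (φ : X ≃ₜ X),
      (φ : C(X, X)).Homotopic (ContinuousMap.id X) →
      ∀ σ : Equiv.Perm (Fin 3),
        ∃ i, φ '' (h '' sector K c₁ i) ≠ h '' sector K c₂ (σ i) := by
  refine ⟨_, famT Data.fK, Data.ca, Data.cb, Data.mfK, Data.clsK, Data.cnK, Data.usK.ori,
    Data.tria.1, Data.trib.1, Data.tria.2.trans Data.trib.2.symm, Data.near, ?_⟩
  intro X _ h φ hφ σ
  by_contra hcon
  push Not at hcon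
  exact not_isotopic Data.coc Data.cia Data.cib (by decide) X h φ hφ σ hcon

end Pool.Agent.Results.MP_5efd29_gt.PLTrisections
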